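import Pool.Agent.N167.SG.LH
import Pool.Agent.N247.TR_Gen

/-!
# Weak-strong uniqueness for the tree model (SG, LH/2; helper216)
-/

set_option autoImplicit false

namespace Pool.Agent.N216.SG

open Set Filter Topology MeasureTheory
open Pool.Agent.N167.TR Pool.Agent.N167.SG
open Pool.Agent.N247.TR (L mem_L gen_eq)

variable {M : ℕ}

theorem L_succ (n : ℕ) (g : List (Fin M) → ℝ) :
    ∑ j ∈ L (n + 1), g j = ∑ i ∈ L n, ∑ k : Fin M, g (k :: i) := by
  rw [← gen_eq, gen, gen_eq]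

theorem L_const (n : ℕ) (c : ℝ) : ∑ _j ∈ L (M := M) n, c = (M : ℝ) ^ n * c := by
  rw [← gen_eq]
  exact (Pool.Agent.N247.TR.main M).2.2.2.2.1 n c

/-- Gronwall's inequality (from `Pool.Agent.N157.SG`) -/
theorem gron {T κ G : ℝ} {E E' : ℝ → ℝ} (hκ : 0 ≤ κ) (hG : 0 ≤ G)
    (hd : ∀ t ∈ Icc (0 : ℝ) T, HasDerivWithinAt E (E' t) (Icc 0 T) t)
    (hle : ∀ t ∈ Icc (0 : ℝ) T, E' t ≤ κ * E t + G) :
    ∀ t ∈ Icc (0 : ℝ) T, E t ≤ Real.exp (κ * t) * (E 0 + G * t) := by
  intro t ht
  have hT : 0 ≤ T := ht.1.trans ht.2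
  have hg : ∀ s ∈ Icc (0 : ℝ) T,
      HasDerivWithinAt (fun s => G * s - Real.exp (-κ * s) * E s)
        (G - (Real.exp (-κ * s) * (-κ) * E s + Real.exp (-κ * s) * E' s)) (Icc 0 T) s := by
    intro s hs
    have h1 : HasDerivWithinAt (fun s : ℝ => G * s) G (Icc 0 T) s := by
      simpa using (hasDerivWithinAt_id s (Icc 0 T)).const_mul G
    have h2 : HasDerivAt (fun s : ℝ => -κ * s) (-κ) s := by
      simpa using (hasDerivAt_id s).const_mul (-κ)
    exact h1.sub (h2.exp.hasDerivWithinAt.mul (hd s hs))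
  have hmono : MonotoneOn (fun s => G * s - Real.exp (-κ * s) * E s) (Icc 0 T) := by
    refine monotoneOn_of_deriv_nonneg (convex_Icc 0 T) (fun s hs => (hg s hs).continuousWithinAt)
      ?_ ?_
    · rw [interior_Icc]
      intro s hs
      exact ((hg s (Ioo_subset_Icc_self hs)).hasDerivAt
        (Icc_mem_nhds hs.1 hs.2)).differentiableAt.differentiableWithinAt
    · rw [interior_Icc]
      intro s hs
      rw [((hg s (Ioo_subset_Icc_self hs)).hasDerivAt (Icc_mem_nhds hs.1 hs.2)).deriv]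
      have h1 := hle s (Ioo_subset_Icc_self hs)
      have h2 : Real.exp (-κ * s) ≤ 1 := Real.exp_le_one_iff.2 (by nlinarith [hs.1])
      have h3 := Real.exp_pos (-κ * s)
      have h4 : Real.exp (-κ * s) * (E' s - κ * E s) ≤ G := by
        calc Real.exp (-κ * s) * (E' s - κ * E s) ≤ Real.exp (-κ * s) * G :=
              mul_le_mul_of_nonneg_left (by linarith) h3.le
          _ ≤ 1 * G := mul_le_mul_of_nonneg_right h2 hG
          _ = G := one_mul G
      have h5 : Real.exp (-κ * s) * (-κ) * E s + Real.exp (-κ * s) * E' s =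
          Real.exp (-κ * s) * (E' s - κ * E s) := by ring
      rw [h5]
      linarith
  have h1 := hmono (left_mem_Icc.2 hT) ht ht.1
  simp only [mul_zero, Real.exp_zero, zero_sub, one_mul] at h1
  have h2 : Real.exp (-κ * t) * E t ≤ E 0 + G * t := by linarith
  have h3 : Real.exp (κ * t) * Real.exp (-κ * t) = 1 := by
    rw [← Real.exp_add]; simp
  calc E t = Real.exp (κ * t) * (Real.exp (-κ * t) * E t) := by rw [← mul_assoc, h3, one_mul]
    _ ≤ Real.exp (κ * t) * (E 0 + G * t) := mul_le_mul_of_nonneg_left h2 (Real.exp_pos _).le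

/-- Gronwall's inequality, integral form. -/
theorem gronI {T κ e : ℝ} {φ : ℝ → ℝ} (hκ : 0 ≤ κ) (he : 0 ≤ e) (hφ : ContinuousOn φ (Ici 0))
    (hle : ∀ t ∈ Icc (0 : ℝ) T, φ t ≤ e + κ * ∫ τ in (0 : ℝ)..t, φ τ) :
    ∀ t ∈ Icc (0 : ℝ) T, φ t ≤ e * (1 + κ * (Real.exp (κ * t) * t)) := by
  intro t ht
  set ψ : ℝ → ℝ := fun s => φ (max s 0) with hψ
  have hψc : Continuous ψ := hφ.comp_continuous (continuous_id.max continuous_const)
    fun s => mem_Ici.2 (le_max_right _ _)
  have hI : ∀ s, 0 ≤ s → ∫ τ in (0 : ℝ)..s, φ τ = ∫ τ in (0 : ℝ)..s, ψ τ := by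
    intro s hs
    refine intervalIntegral.integral_congr fun τ hτ => ?_
    rw [uIcc_of_le hs] at hτ
    simp only [hψ, max_eq_left hτ.1]
  have h1 := gron (T := T) (κ := κ) (G := e) (E := fun s => ∫ τ in (0 : ℝ)..s, ψ τ) (E' := ψ) hκ he
    (fun s _ => (hψc.integral_hasStrictDerivAt 0 s).hasDerivAt.hasDerivWithinAt)
    (fun s hs => by
      have h2 := hle s hs
      rw [hI s hs.1] at h2
      simp only [hψ, max_eq_left hs.1]
      linarith) t ht
  simp only [intervalIntegral.integral_same, zero_add] at h1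
  have h2 := hle t ht
  rw [hI t ht.1] at h2
  have h3 := mul_le_mul_of_nonneg_left h1 hκ
  calc φ t ≤ e + κ * ∫ τ in (0 : ℝ)..t, ψ τ := h2
    _ ≤ e + κ * (Real.exp (κ * t) * (e * t)) := by linarith
    _ = _ := by ring

/-- the density at a node -/
noncomputable def qq (B D ν : ℝ) (f X Z : List (Fin M) → ℝ) (j : List (Fin M)) : ℝ :=
  2 * (X j * rhs B D ν f X j) - 2 * (X j * rhs B D ν f Z j) - 2 * (Z j * rhs B D ν f X j)

/-- the boundary term at a node -/
noncomputable def bd (B : ℝ) (X Z : List (Fin M) → ℝ) (j : List (Fin M)) : ℝ :=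
  -(2 * B ^ j.length * ∑ k : Fin M, (X j ^ 2 * X (k :: j) - X j * Z j * Z (k :: j) -
    X j * Z j * X (k :: j)))

/-- the edge terms at a node -/
noncomputable def edg (B : ℝ) (X Z : List (Fin M) → ℝ) (j : List (Fin M)) : ℝ :=
  -(2 * B ^ j.length * ∑ k : Fin M, (Z j - X j) *
    (X (k :: j) * (Z j - X j) - (Z (k :: j) - X (k :: j)) * X j))

theorem bd_edg (B : ℝ) (X Z : List (Fin M) → ℝ) (i : List (Fin M)) :
    bd B X Z i + ∑ k : Fin M, 2 * B ^ i.length *
      (X (k :: i) * X i ^ 2 - X (k :: i) * Z i ^ 2 - Z (k :: i) * X i ^ 2) = edg B X Z i := by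
  unfold bd edg
  rw [← Finset.mul_sum, ← mul_neg, ← mul_add, ← mul_neg]
  congr 1
  rw [← Finset.sum_neg_distrib, ← Finset.sum_neg_distrib, ← Finset.sum_add_distrib]
  refine Finset.sum_congr rfl fun k _ => ?_
  ring

theorem qq_cons {B D ν : ℝ} (hD : 0 ≤ D) (hν : 0 ≤ ν) (f X Z : List (Fin M) → ℝ)
    (i : List (Fin M)) (k : Fin M) :
    qq B D ν f X Z (k :: i) ≤ (-(2 * (f (k :: i) * Z (k :: i))) +
      2 * ν * D ^ (k :: i).length * Z (k :: i) ^ 2) + bd B X Z (k :: i) +
      2 * B ^ i.length * (X (k :: i) * X i ^ 2 - X (k :: i) * Z i ^ 2 - Z (k :: i) * X i ^ 2) := by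
  have h0 : 0 ≤ 2 * (ν * D ^ (k :: i).length) * (X (k :: i) - Z (k :: i)) ^ 2 := by positivity
  have h1 : ∀ (c : ℝ) (u v w : Fin M → ℝ), c * ∑ l, (u l - v l - w l) =
      c * ∑ l, u l - c * ∑ l, v l - c * ∑ l, w l := by
    intro c u v w
    rw [Finset.sum_sub_distrib, Finset.sum_sub_distrib]; ring
  have h2 : qq B D ν f X Z (k :: i) = (-(2 * (f (k :: i) * Z (k :: i))) +
      2 * ν * D ^ (k :: i).length * Z (k :: i) ^ 2) + bd B X Z (k :: i) +
      2 * B ^ i.length * (X (k :: i) * X i ^ 2 - X (k :: i) * Z i ^ 2 - Z (k :: i) * X i ^ 2) -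
      2 * (ν * D ^ (k :: i).length) * (X (k :: i) - Z (k :: i)) ^ 2 := by
    unfold qq bd rhs inflow
    rw [h1, ← Finset.mul_sum, ← Finset.mul_sum, ← Finset.mul_sum]
    ring
  linarith

theorem qq_nil {B D ν : ℝ} (hν : 0 ≤ ν) (f X Z : List (Fin M) → ℝ) :
    qq B D ν f X Z [] ≤ (-(2 * (f [] * Z [])) +
      2 * ν * D ^ ([] : List (Fin M)).length * Z [] ^ 2) + bd B X Z [] := by
  have h0 : 0 ≤ 2 * ν * (X [] - Z []) ^ 2 := by positivity
  have h1 : ∀ (c : ℝ) (u v w : Fin M → ℝ), c * ∑ l, (u l - v l - w l) =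
      c * ∑ l, u l - c * ∑ l, v l - c * ∑ l, w l := by
    intro c u v w
    rw [Finset.sum_sub_distrib, Finset.sum_sub_distrib]; ring
  have h2 : qq B D ν f X Z [] = (-(2 * (f [] * Z [])) +
      2 * ν * D ^ ([] : List (Fin M)).length * Z [] ^ 2) + bd B X Z [] -
      2 * ν * (X [] - Z []) ^ 2 := by
    unfold qq bd rhs inflow
    rw [h1, ← Finset.mul_sum, ← Finset.mul_sum, ← Finset.mul_sum]
    simp only [List.length_nil, pow_zero]
    ring
  linarith

/-- The telescoping inequality. -/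
theorem alg {B D ν : ℝ} (hD : 0 ≤ D) (hν : 0 ≤ ν) (f X Z : List (Fin M) → ℝ) (N : ℕ) :
    ∑ n ∈ Finset.range (N + 1), ∑ j ∈ L n, qq B D ν f X Z j ≤
      ∑ n ∈ Finset.range (N + 1), ∑ j ∈ L n,
        (-(2 * (f j * Z j)) + 2 * ν * D ^ j.length * Z j ^ 2) +
      ∑ n ∈ Finset.range N, ∑ j ∈ L n, edg B X Z j + ∑ j ∈ L N, bd B X Z j := by
  induction N with
  | zero =>
    have hL : L (M := M) 0 = {[]} := rfl
    rw [zero_add, Finset.sum_range_one, Finset.sum_range_one, Finset.sum_range_zero, add_zero, hL,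
      Finset.sum_singleton, Finset.sum_singleton, Finset.sum_singleton]
    exact qq_nil hν f X Z
  | succ N ih =>
    rw [Finset.sum_range_succ, Finset.sum_range_succ (fun n => ∑ j ∈ L n,
        (-(2 * (f j * Z j)) + 2 * ν * D ^ j.length * Z j ^ 2)),
      Finset.sum_range_succ (fun n => ∑ j ∈ L n, edg B X Z j) N]
    have h1 : ∑ j ∈ L (N + 1), qq B D ν f X Z j ≤ ∑ j ∈ L (N + 1),
        (-(2 * (f j * Z j)) + 2 * ν * D ^ j.length * Z j ^ 2) + ∑ j ∈ L (N + 1), bd B X Z j +
        (∑ j ∈ L N, edg B X Z j - ∑ j ∈ L N, bd B X Z j) := by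
      rw [L_succ, L_succ, L_succ, ← Finset.sum_add_distrib, ← Finset.sum_sub_distrib,
        ← Finset.sum_add_distrib]
      refine Finset.sum_le_sum fun i _ => ?_
      rw [← bd_edg B X Z i, add_sub_cancel_left, ← Finset.sum_add_distrib,
        ← Finset.sum_add_distrib]
      exact Finset.sum_le_sum fun k _ => qq_cons hD hν f X Z i k
    linarith

/-- the edge terms are controlled by the energy of the difference -/
theorem edg_le {B A K : ℝ} (hB : 0 < B) (X Z : List (Fin M) → ℝ) (i : List (Fin M))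
    (hX : B ^ i.length * |X i| ≤ A) (hX' : ∀ k : Fin M, B ^ i.length * |X (k :: i)| ≤ K) :
    edg B X Z i ≤ M * (2 * K + A) * (Z i - X i) ^ 2 +
      A * ∑ k : Fin M, (Z (k :: i) - X (k :: i)) ^ 2 := by
  have hp : 0 < B ^ i.length := pow_pos hB _
  have h1 : ∀ k : Fin M, -(2 * B ^ i.length * ((Z i - X i) *
      (X (k :: i) * (Z i - X i) - (Z (k :: i) - X (k :: i)) * X i))) ≤
      (2 * K + A) * (Z i - X i) ^ 2 + A * (Z (k :: i) - X (k :: i)) ^ 2 := by
    intro k
    set u := Z i - X i with hu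
    set v := Z (k :: i) - X (k :: i) with hv
    have e1 : -(2 * B ^ i.length * (u * (X (k :: i) * u - v * X i))) =
        2 * ((B ^ i.length * -X (k :: i)) * u ^ 2) + (B ^ i.length * X i) * (2 * (u * v)) := by ring
    have e2 : (B ^ i.length * -X (k :: i)) * u ^ 2 ≤ K * u ^ 2 := by
      refine mul_le_mul_of_nonneg_right ?_ (sq_nonneg u)
      exact (mul_le_mul_of_nonneg_left (neg_le_abs _) hp.le).trans (hX' k)
    have e3 : (B ^ i.length * X i) * (2 * (u * v)) ≤ A * (u ^ 2 + v ^ 2) := by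
      calc (B ^ i.length * X i) * (2 * (u * v)) ≤ |(B ^ i.length * X i) * (2 * (u * v))| :=
            le_abs_self _
        _ = (B ^ i.length * |X i|) * |2 * (u * v)| := by
            rw [abs_mul, abs_mul, abs_of_pos hp]
        _ ≤ A * (u ^ 2 + v ^ 2) := by
            refine mul_le_mul hX ?_ (abs_nonneg _) ((by positivity : (0:ℝ) ≤ B ^ i.length * |X i|).trans hX)
            rw [abs_le]
            constructor <;> nlinarith [sq_nonneg (u - v), sq_nonneg (u + v)]
    rw [e1]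
    linarith
  have h2 : edg B X Z i = ∑ k : Fin M, -(2 * B ^ i.length * ((Z i - X i) *
      (X (k :: i) * (Z i - X i) - (Z (k :: i) - X (k :: i)) * X i))) := by
    unfold edg
    rw [Finset.sum_neg_distrib, Finset.mul_sum]
  rw [h2]
  refine (Finset.sum_le_sum fun k _ => h1 k).trans (le_of_eq ?_)
  rw [Finset.sum_add_distrib, Finset.sum_const, Finset.card_univ, Fintype.card_fin, nsmul_eq_mul,
    ← Finset.mul_sum]
  ring

/-- the sum of the edge terms -/
theorem edg_sum {B A K : ℝ} (hB : 0 < B) (hA : 0 ≤ A) (hK : 0 ≤ K) (X Z : List (Fin M) → ℝ) (N : ℕ)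
    (hX : ∀ i : List (Fin M), B ^ i.length * |X i| ≤ A)
    (hX' : ∀ (i : List (Fin M)) (k : Fin M), B ^ i.length * |X (k :: i)| ≤ K) :
    ∑ n ∈ Finset.range N, ∑ j ∈ L n, edg B X Z j ≤
      (M * (2 * K + A) + A) * ∑ n ∈ Finset.range (N + 1), ∑ j ∈ L n, (Z j - X j) ^ 2 := by
  have hn : ∀ n, 0 ≤ ∑ j ∈ L (M := M) n, (Z j - X j) ^ 2 :=
    fun n => Finset.sum_nonneg fun j _ => sq_nonneg _
  have h1 : ∀ n, ∑ j ∈ L (M := M) n, edg B X Z j ≤
      M * (2 * K + A) * ∑ j ∈ L n, (Z j - X j) ^ 2 + A * ∑ j ∈ L (n + 1), (Z j - X j) ^ 2 := by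
    intro n
    rw [L_succ, Finset.mul_sum, Finset.mul_sum, ← Finset.sum_add_distrib]
    exact Finset.sum_le_sum fun i _ => edg_le hB X Z i (hX i) (hX' i)
  calc ∑ n ∈ Finset.range N, ∑ j ∈ L n, edg B X Z j
      ≤ ∑ n ∈ Finset.range N, (M * (2 * K + A) * ∑ j ∈ L n, (Z j - X j) ^ 2 +
          A * ∑ j ∈ L (n + 1), (Z j - X j) ^ 2) := Finset.sum_le_sum fun n _ => h1 n
    _ = M * (2 * K + A) * ∑ n ∈ Finset.range N, ∑ j ∈ L n, (Z j - X j) ^ 2 +
          A * ∑ n ∈ Finset.range N, ∑ j ∈ L (n + 1), (Z j - X j) ^ 2 := by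
        rw [Finset.sum_add_distrib, Finset.mul_sum, Finset.mul_sum]
    _ ≤ M * (2 * K + A) * ∑ n ∈ Finset.range (N + 1), ∑ j ∈ L n, (Z j - X j) ^ 2 +
          A * ∑ n ∈ Finset.range (N + 1), ∑ j ∈ L n, (Z j - X j) ^ 2 := by
        refine add_le_add (mul_le_mul_of_nonneg_left ?_ (by positivity))
          (mul_le_mul_of_nonneg_left ?_ hA)
        · exact Finset.sum_le_sum_of_subset_of_nonneg
            (Finset.range_subset_range.2 (Nat.le_succ N)) fun n _ _ => hn n
        · rw [Finset.sum_range_succ' (fun n => ∑ j ∈ L (M := M) n, (Z j - X j) ^ 2) N]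
          linarith [hn 0]
    _ = _ := by ring

/-- the boundary terms -/
theorem bd_sum {B α A1 R : ℝ} (hB : 0 < B) (hα : 0 ≤ α) (hA1 : 0 ≤ A1) (hR : 0 ≤ R)
    (X Z : List (Fin M) → ℝ) (N : ℕ)
    (hX : ∀ i : List (Fin M), i.length = N → |X i| ≤ α) (hX1 : ∀ i, |X i| ≤ A1)
    (hZ : ∀ i, |Z i| ≤ R) :
    ∑ j ∈ L N, bd B X Z j ≤
      (B * M) ^ N * α * (2 * M * (A1 ^ 2 + R ^ 2 + R * A1)) := by
  have hp : 0 < B ^ N := pow_pos hB _
  have h1 : ∀ i ∈ L (M := M) N, bd B X Z i ≤
      B ^ N * α * (2 * M * (A1 ^ 2 + R ^ 2 + R * A1)) := by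
    intro i hi
    have hi' := (mem_L N i).1 hi
    have h2 : ∀ k : Fin M, -(X i ^ 2 * X (k :: i) - X i * Z i * Z (k :: i) - X i * Z i * X (k :: i)) ≤
        α * (A1 ^ 2 + R ^ 2 + R * A1) := by
      intro k
      have e : -(X i ^ 2 * X (k :: i) - X i * Z i * Z (k :: i) - X i * Z i * X (k :: i)) =
          X i * (-(X i * X (k :: i)) + Z i * Z (k :: i) + Z i * X (k :: i)) := by ring
      rw [e]
      refine (le_abs_self _).trans ?_
      rw [abs_mul]
      refine mul_le_mul (hX i hi') ?_ (abs_nonneg _) hα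
      refine (abs_add_le _ _).trans (add_le_add ((abs_add_le _ _).trans (add_le_add ?_ ?_)) ?_)
      · rw [abs_neg, abs_mul, pow_two]
        exact mul_le_mul (hX1 _) (hX1 _) (abs_nonneg _) hA1
      · rw [abs_mul, pow_two]
        exact mul_le_mul (hZ _) (hZ _) (abs_nonneg _) hR
      · rw [abs_mul]
        exact mul_le_mul (hZ _) (hX1 _) (abs_nonneg _) hR
    have h3 : bd B X Z i = 2 * B ^ N * ∑ k : Fin M,
        -(X i ^ 2 * X (k :: i) - X i * Z i * Z (k :: i) - X i * Z i * X (k :: i)) := by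
      unfold bd
      rw [hi', Finset.sum_neg_distrib]
      ring
    rw [h3]
    calc 2 * B ^ N * ∑ k : Fin M,
        -(X i ^ 2 * X (k :: i) - X i * Z i * Z (k :: i) - X i * Z i * X (k :: i))
        ≤ 2 * B ^ N * ∑ _k : Fin M, α * (A1 ^ 2 + R ^ 2 + R * A1) :=
          mul_le_mul_of_nonneg_left (Finset.sum_le_sum fun k _ => h2 k) (by positivity)
      _ = _ := by
          rw [Finset.sum_const, Finset.card_univ, Fintype.card_fin, nsmul_eq_mul]
          ring
  refine (Finset.sum_le_sum h1).trans (le_of_eq ?_)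
  rw [L_const, mul_pow]
  ring

/-- the nodes of generation at most `N` -/
def SN (N : ℕ) : Finset (List (Fin M)) := (Finset.range (N + 1)).biUnion L

theorem mem_SN (N : ℕ) (j : List (Fin M)) : j ∈ SN N ↔ j.length ≤ N := by
  unfold SN
  rw [Finset.mem_biUnion]
  constructor
  · rintro ⟨n, hn, hj⟩
    rw [(mem_L n j).1 hj]
    exact Nat.lt_succ_iff.1 (Finset.mem_range.1 hn)
  · intro h
    exact ⟨j.length, Finset.mem_range.2 (Nat.lt_succ_of_le h), (mem_L _ j).2 rfl⟩

theorem sum_SN (N : ℕ) (g : List (Fin M) → ℝ) :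
    ∑ j ∈ SN N, g j = ∑ n ∈ Finset.range (N + 1), ∑ j ∈ L n, g j := by
  unfold SN
  rw [Finset.sum_biUnion]
  intro a _ b _ hab
  rw [Function.onFun, Finset.disjoint_left]
  intro j hj hj'
  exact hab (((mem_L a j).1 hj).symm.trans ((mem_L b j).1 hj'))

theorem SN_tendsto : Tendsto (SN (M := M)) atTop atTop := by
  refine tendsto_atTop_finset_of_monotone (fun a b hab j hj => ?_) fun j => ⟨j.length, ?_⟩
  · exact (mem_SN b j).2 (((mem_SN a j).1 hj).trans hab)
  · exact (mem_SN _ j).2 le_rfl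

theorem rapid_summable {a : ℕ → ℝ} (ha : Rapid a) (h0 : ∀ n, 0 ≤ a n) (hM : 0 < M) :
    Summable (fun j : List (Fin M) => a j.length) := by
  have hMR : (1 : ℝ) ≤ M := by exact_mod_cast hM
  obtain ⟨C, hC⟩ := ha (2 * M) (by positivity)
  refine summable_of_sum_le (c := C * 2) (fun j => h0 _) fun u => ?_
  obtain ⟨N, hN⟩ : ∃ N, u ⊆ SN N := by
    refine ⟨u.sup List.length, fun j hj => (mem_SN _ j).2 (Finset.le_sup (f := List.length) hj)⟩
  calc ∑ j ∈ u, a j.length ≤ ∑ j ∈ SN N, a j.length :=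
        Finset.sum_le_sum_of_subset_of_nonneg hN fun j _ _ => h0 _
    _ = ∑ n ∈ Finset.range (N + 1), ∑ j ∈ L (M := M) n, a j.length := sum_SN N _
    _ = ∑ n ∈ Finset.range (N + 1), (M : ℝ) ^ n * a n := by
        refine Finset.sum_congr rfl fun n _ => ?_
        rw [← L_const]
        exact Finset.sum_congr rfl fun j hj => by rw [(mem_L n j).1 hj]
    _ ≤ ∑ n ∈ Finset.range (N + 1), C * (1 / 2 : ℝ) ^ n := by
        refine Finset.sum_le_sum fun n _ => ?_
        have h2 := hC n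
        rw [mul_pow] at h2
        rw [one_div, inv_pow, ← div_eq_mul_inv, le_div_iff₀ (by positivity)]
        linarith
    _ = C * ∑ n ∈ Finset.range (N + 1), (1 / 2 : ℝ) ^ n := by rw [Finset.mul_sum]
    _ ≤ C * 2 := by
        refine mul_le_mul_of_nonneg_left (sum_geometric_two_le _) ?_
        have := hC 0
        rw [pow_zero, one_mul] at this
        exact (h0 0).trans this

theorem rhs_cont {B D ν : ℝ} {f X : List (Fin M) → ℝ → ℝ} (hf : ∀ j, ContinuousOn (f j) (Ici 0))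
    (hX : ∀ j, ContinuousOn (X j) (Ici 0)) (j : List (Fin M)) :
    ContinuousOn (fun t => rhs B D ν (fun i => f i t) (fun i => X i t) j) (Ici 0) := by
  have h1 : ContinuousOn (fun t => inflow B (fun i => X i t) j) (Ici 0) := by
    cases j with
    | nil => exact continuousOn_const
    | cons k i => exact ((hX i).pow 2).const_mul _ 
  have h2 : ContinuousOn (fun t => ∑ k : Fin M, X (k :: j) t) (Ici 0) :=
    continuousOn_finsetSum _ fun k _ => hX (k :: j)
  exact (((hf j).sub ((hX j).const_mul (ν * D ^ j.length))).add h1).sub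
    (((hX j).const_mul (B ^ j.length)).mul h2)

theorem t_LH2 : S_LH2 := by
  intro M B D ν F a f x X Z hM hB hD hν hF hfc hf hX ha hXa ⟨hZ, hZE, hZI⟩ j₀ t₀ ht₀
  have hD0 : 0 ≤ D := by linarith
  have hMR : (0 : ℝ) < M := by exact_mod_cast hM
  have hlen : ∀ n : ℕ, ∃ j : List (Fin M), j.length = n :=
    fun n => ⟨List.replicate n ⟨0, hM⟩, by simp⟩
  have ha0 : ∀ n, 0 ≤ a n := by
    intro n
    obtain ⟨j, hj⟩ := hlen n
    have := hXa j 0 le_rfl
    rw [hj] at this
    exact (abs_nonneg _).trans this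
  have hF0 : ∀ n, 0 ≤ F n := by
    intro n
    obtain ⟨j, hj⟩ := hlen n
    have := hf j 0 le_rfl
    rw [hj] at this
    exact (abs_nonneg _).trans this
  set T := t₀ with hT
  obtain ⟨E, hE⟩ := hZE T
  have hE0 : 0 ≤ E := by simpa using hE 0 ⟨le_rfl, ht₀⟩ ∅
  set R : ℝ := E + 1 with hR
  have hR0 : 0 ≤ R := by linarith
  have hZR : ∀ j, ∀ t ∈ Icc (0 : ℝ) T, |Z j t| ≤ R := by
    intro j t ht
    have h1 := hE t ht {j}
    rw [Finset.sum_singleton] at h1
    exact abs_le_of_sq_le_sq (by nlinarith) hR0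
  obtain ⟨K1, hK1⟩ := ha B hB
  obtain ⟨K2, hK2⟩ := ha (2 * (B * M)) (by positivity)
  obtain ⟨A1, hA1⟩ := ha 1 one_pos
  have hA1' : ∀ n, a n ≤ A1 := fun n => by simpa using hA1 n
  have hA10 : 0 ≤ A1 := (ha0 0).trans (hA1' 0)
  have hK10 : 0 ≤ K1 := by
    have := hK1 0
    rw [pow_zero, one_mul] at this
    exact (ha0 0).trans this
  have hK20 : 0 ≤ K2 := by
    have := hK2 0
    rw [pow_zero, one_mul] at this
    exact (ha0 0).trans this
  have hK2' : ∀ N : ℕ, (B * M) ^ N * a N ≤ K2 * (1 / 2 : ℝ) ^ N := by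
    intro N
    have h2 := hK2 N
    rw [mul_pow] at h2
    rw [one_div, inv_pow, ← div_eq_mul_inv, le_div_iff₀ (by positivity)]
    linarith
  -- continuity
  have hXc : ∀ j, ContinuousOn (X j) (Ici 0) := fun j t ht => (hX.2 j t ht).continuousWithinAt
  have hZc : ∀ j, ContinuousOn (Z j) (Ici 0) := fun j t ht => (hZ.2 j t ht).continuousWithinAt
  have hFs : Summable (fun j : List (Fin M) => F j.length) := rapid_summable hF hF0 hM
  have has : Summable (fun j : List (Fin M) => a j.length) := rapid_summable ha ha0 hM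
  have hxs : Summable (fun j : List (Fin M) => x j ^ 2) := by
    refine Summable.of_nonneg_of_le (fun j => sq_nonneg _) (fun j => ?_) (has.mul_left A1)
    have h1 := hXa j 0 le_rfl
    rw [hX.1 j] at h1
    rw [← sq_abs, pow_two]
    exact mul_le_mul (h1.trans (hA1' _)) h1 (abs_nonneg _) hA10
  have hub : ∀ j, ∀ t ∈ Icc (0 : ℝ) T, |f j t * Z j t| ≤ R * F j.length := by
    intro j t ht
    rw [abs_mul, mul_comm]
    exact mul_le_mul (hZR j t ht) (hf j t ht.1) (abs_nonneg _) hR0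
  set FZ : ℝ → ℝ := fun t => ∑' j, f j t * Z j t with hFZ
  have hFZc : ContinuousOn FZ (Icc 0 T) :=
    continuousOn_tsum (fun j => ((hfc j).mul (hZc j)).mono Icc_subset_Ici_self)
      (hFs.mul_left R) (fun j t ht => by rw [Real.norm_eq_abs]; exact hub j t ht)
  have hqc : ∀ j, ContinuousOn (fun t => qq B D ν (fun i => f i t) (fun i => X i t)
      (fun i => Z i t) j) (Ici 0) := by
    intro j
    have h1 := rhs_cont (B := B) (D := D) (ν := ν) hfc hXc j
    have h2 := rhs_cont (B := B) (D := D) (ν := ν) hfc hZc j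
    exact ((((hXc j).mul h1).const_mul 2).sub (((hXc j).mul h2).const_mul 2)).sub
      (((hZc j).mul h1).const_mul 2)
  -- the constants
  set κ : ℝ := M * (2 * (K1 / B) + K1) + K1 with hκ
  have hκ0 : 0 ≤ κ := by positivity
  set Q : ℝ := 2 * M * (A1 ^ 2 + R ^ 2 + R * A1) with hQ
  have hQ0 : 0 ≤ Q := by positivity
  set r : ℕ → ℝ := fun N => 2 * (R * (∑' j : List (Fin M), F j.length -
    ∑ j ∈ SN (M := M) N, F j.length)) + K2 * (1 / 2 : ℝ) ^ N * Q with hr
  set tx : ℕ → ℝ := fun N => ∑' j, x j ^ 2 - ∑ j ∈ SN (M := M) N, x j ^ 2 with htx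
  have hr0 : ∀ N, 0 ≤ r N := by
    intro N
    have h1 : 0 ≤ ∑' j : List (Fin M), F j.length - ∑ j ∈ SN (M := M) N, F j.length :=
      sub_nonneg.2 (hFs.sum_le_tsum _ fun j _ => hF0 _)
    simp only [hr]
    positivity
  have htx0 : ∀ N, 0 ≤ tx N := fun N => sub_nonneg.2 (hxs.sum_le_tsum _ fun j _ => sq_nonneg _)
  -- the pointwise inequality
  have hpt : ∀ N : ℕ, ∀ t ∈ Icc (0 : ℝ) T,
      2 * FZ t - ∑ j ∈ SN N, 2 * ν * D ^ j.length * Z j t ^ 2 +
        ∑ j ∈ SN N, qq B D ν (fun i => f i t) (fun i => X i t) (fun i => Z i t) j ≤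
      κ * ∑ j ∈ SN N, (Z j t - X j t) ^ 2 + r N := by
    intro N t ht
    have h1 := alg (B := B) hD0 hν.le (fun i => f i t) (fun i => X i t) (fun i => Z i t) N
    have h2 := edg_sum (A := K1) (K := K1 / B) hB hK10 (by positivity) (fun i => X i t)
      (fun i => Z i t) N
      (fun i => (mul_le_mul_of_nonneg_left (hXa i t ht.1) (by positivity)).trans (hK1 _))
      (fun i k => by
        rw [le_div_iff₀ hB]
        have h3 := hXa (k :: i) t ht.1
        rw [List.length_cons] at h3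
        calc B ^ i.length * |X (k :: i) t| * B = B ^ (i.length + 1) * |X (k :: i) t| := by
              rw [pow_succ]; ring
          _ ≤ B ^ (i.length + 1) * a (i.length + 1) :=
              mul_le_mul_of_nonneg_left h3 (by positivity)
          _ ≤ K1 := hK1 _)
    have h3 := bd_sum (α := a N) (A1 := A1) (R := R) hB (ha0 N) hA10 hR0 (fun i => X i t)
      (fun i => Z i t) N
      (fun i hi => by have := hXa i t ht.1; rw [hi] at this; exact this)
      (fun i => (hXa i t ht.1).trans (hA1' _)) (fun i => hZR i t ht)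
    have h4 : (B * M) ^ N * a N * Q ≤ K2 * (1 / 2 : ℝ) ^ N * Q :=
      mul_le_mul_of_nonneg_right (hK2' N) hQ0
    have h5 : FZ t - ∑ j ∈ SN N, f j t * Z j t ≤
        R * (∑' j : List (Fin M), F j.length - ∑ j ∈ SN (M := M) N, F j.length) := by
      have hs1 : Summable (fun j => f j t * Z j t) :=
        Summable.of_norm_bounded (hFs.mul_left R) fun j => by
          rw [Real.norm_eq_abs]; exact hub j t ht
      have hs2 : Summable (fun j : List (Fin M) => R * F j.length) := hFs.mul_left R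
      have h6 := (hs2.sub hs1).sum_le_tsum (SN N) fun j _ =>
        sub_nonneg.2 ((le_abs_self _).trans (hub j t ht))
      rw [hs2.tsum_sub hs1, Finset.sum_sub_distrib, tsum_mul_left, ← Finset.mul_sum] at h6
      simp only [hFZ]
      linarith
    rw [← sum_SN, ← sum_SN, Finset.sum_add_distrib, Finset.sum_neg_distrib, ← Finset.mul_sum] at h1
    rw [← sum_SN] at h2
    simp only [hr]
    linarith
  -- the energy of the difference
  have hmain : ∀ N : ℕ, ∑ j ∈ SN N, (Z j T - X j T) ^ 2 ≤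
      (tx N + r N * T) * (1 + κ * (Real.exp (κ * T) * T)) := by
    intro N
    have hφc : ContinuousOn (fun t => ∑ j ∈ SN N, (Z j t - X j t) ^ 2) (Ici 0) :=
      continuousOn_finsetSum _ fun j _ => ((hZc j).sub (hXc j)).pow 2
    refine gronI (T := T) (φ := fun t => ∑ j ∈ SN N, (Z j t - X j t) ^ 2) hκ0
      (add_nonneg (htx0 N) (mul_nonneg (hr0 N) ht₀)) hφc (fun t ht => ?_) T ⟨ht₀, le_rfl⟩
    have hsub : Icc (0 : ℝ) t ⊆ Ici 0 := Icc_subset_Ici_self
    have hsub' : Icc (0 : ℝ) t ⊆ Icc 0 T := Icc_subset_Icc_right ht.2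
    have hu : uIcc (0 : ℝ) t = Icc 0 t := uIcc_of_le ht.1
    -- integrability
    have iF : IntervalIntegrable FZ volume 0 t := by
      apply ContinuousOn.intervalIntegrable; rw [hu]; exact hFZc.mono hsub'
    have iZ : ∀ j, IntervalIntegrable (fun τ => Z j τ ^ 2) volume 0 t := by
      intro j
      apply ContinuousOn.intervalIntegrable; rw [hu]; exact ((hZc j).mono hsub).pow 2
    have iD : IntervalIntegrable (fun τ => ∑ j ∈ SN N, 2 * ν * D ^ j.length * Z j τ ^ 2)
        volume 0 t := by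
      apply ContinuousOn.intervalIntegrable; rw [hu]
      exact continuousOn_finsetSum _ fun j _ => (((hZc j).mono hsub).pow 2).const_mul _
    have iq : IntervalIntegrable (fun τ => ∑ j ∈ SN N, qq B D ν (fun i => f i τ)
        (fun i => X i τ) (fun i => Z i τ) j) volume 0 t := by
      apply ContinuousOn.intervalIntegrable; rw [hu]
      exact continuousOn_finsetSum _ fun j _ => (hqc j).mono hsub
    have iφ : IntervalIntegrable (fun τ => ∑ j ∈ SN N, (Z j τ - X j τ) ^ 2) volume 0 t := by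
      apply ContinuousOn.intervalIntegrable; rw [hu]; exact hφc.mono hsub
    -- the fundamental theorem
    have hftc : ∫ τ in (0 : ℝ)..t, ∑ j ∈ SN N, qq B D ν (fun i => f i τ) (fun i => X i τ)
        (fun i => Z i τ) j = ∑ j ∈ SN N, (X j t ^ 2 - 2 * (X j t * Z j t)) -
          ∑ j ∈ SN N, (X j 0 ^ 2 - 2 * (X j 0 * Z j 0)) := by
      refine intervalIntegral.integral_eq_sub_of_hasDerivAt_of_le ht.1
        (f := fun τ => ∑ j ∈ SN N, (X j τ ^ 2 - 2 * (X j τ * Z j τ))) ?_ (fun τ hτ => ?_) iq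
      · exact (continuousOn_finsetSum _ fun j _ =>
          ((hXc j).pow 2).sub (((hXc j).mul (hZc j)).const_mul 2)).mono hsub
      · have hd : HasDerivWithinAt (fun τ => ∑ j ∈ SN N, (X j τ ^ 2 - 2 * (X j τ * Z j τ)))
            (∑ j ∈ SN N, qq B D ν (fun i => f i τ) (fun i => X i τ) (fun i => Z i τ) j)
            (Ici 0) τ := by
          refine HasDerivWithinAt.fun_sum fun j _ => ?_
          have h1 := hX.2 j τ hτ.1.le
          have h2 := hZ.2 j τ hτ.1.le
          refine ((h1.fun_pow 2).fun_sub ((h1.fun_mul h2).const_mul 2)).congr_deriv ?_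
          unfold qq
          push_cast
          ring
        exact hd.hasDerivAt (Ici_mem_nhds hτ.1)
    have h0 : ∑ j ∈ SN N, (X j 0 ^ 2 - 2 * (X j 0 * Z j 0)) = -∑ j ∈ SN N, x j ^ 2 := by
      rw [← Finset.sum_neg_distrib]
      refine Finset.sum_congr rfl fun j _ => ?_
      rw [hX.1 j, hZ.1 j]; ring
    have hLI := hZI t ht.1 (SN N)
    have hφ : ∑ j ∈ SN N, (Z j t - X j t) ^ 2 =
        ∑ j ∈ SN N, Z j t ^ 2 + ∑ j ∈ SN N, (X j t ^ 2 - 2 * (X j t * Z j t)) := by
      rw [← Finset.sum_add_distrib]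
      refine Finset.sum_congr rfl fun j _ => ?_
      ring
    have hDI : ∫ τ in (0 : ℝ)..t, ∑ j ∈ SN N, 2 * ν * D ^ j.length * Z j τ ^ 2 =
        ∑ j ∈ SN N, 2 * ν * D ^ j.length * ∫ τ in (0 : ℝ)..t, Z j τ ^ 2 := by
      rw [intervalIntegral.integral_finsetSum fun j _ => (iZ j).const_mul _]
      refine Finset.sum_congr rfl fun j _ => ?_
      rw [intervalIntegral.integral_const_mul]
    have hint : ∫ τ in (0 : ℝ)..t, (2 * FZ τ - ∑ j ∈ SN N, 2 * ν * D ^ j.length * Z j τ ^ 2 +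
        ∑ j ∈ SN N, qq B D ν (fun i => f i τ) (fun i => X i τ) (fun i => Z i τ) j) ≤
        ∫ τ in (0 : ℝ)..t, (κ * ∑ j ∈ SN N, (Z j τ - X j τ) ^ 2 + r N) := by
      refine intervalIntegral.integral_mono_on ht.1 (((iF.const_mul 2).sub iD).add iq)
        ((iφ.const_mul κ).add intervalIntegrable_const) fun τ hτ => hpt N τ (hsub' hτ)
    rw [intervalIntegral.integral_add ((iF.const_mul 2).sub iD) iq,
      intervalIntegral.integral_sub (iF.const_mul 2) iD, intervalIntegral.integral_const_mul,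
      hDI, hftc, h0, intervalIntegral.integral_add (iφ.const_mul κ) intervalIntegrable_const,
      intervalIntegral.integral_const_mul, intervalIntegral.integral_const, smul_eq_mul,
      sub_zero] at hint
    rw [Finset.sum_add_distrib] at hLI
    have hrT : t * r N ≤ r N * T := by
      rw [mul_comm]; exact mul_le_mul_of_nonneg_left ht.2 (hr0 N)
    change ∑ j ∈ SN N, (Z j t - X j t) ^ 2 ≤ tx N + r N * T +
      κ * ∫ τ in (0 : ℝ)..t, ∑ j ∈ SN N, (Z j τ - X j τ) ^ 2
    rw [hφ]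
    simp only [hFZ] at hint
    simp only [htx]
    linarith
  -- conclusion
  have hlim : Tendsto (fun N : ℕ => (tx N + r N * T) * (1 + κ * (Real.exp (κ * T) * T))) atTop
      (𝓝 0) := by
    have h1 : Tendsto (fun N : ℕ => (1 / 2 : ℝ) ^ N) atTop (𝓝 0) :=
      tendsto_pow_atTop_nhds_zero_of_lt_one (by norm_num) (by norm_num)
    have h2 : Tendsto tx atTop (𝓝 0) := by
      have := (hxs.hasSum.comp (SN_tendsto (M := M))).const_sub (∑' j, x j ^ 2)
      rw [sub_self] at this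
      exact this
    have h3 : Tendsto (fun N => ∑' j : List (Fin M), F j.length -
        ∑ j ∈ SN (M := M) N, F j.length) atTop (𝓝 0) := by
      have := (hFs.hasSum.comp (SN_tendsto (M := M))).const_sub (∑' j : List (Fin M), F j.length)
      rw [sub_self] at this
      exact this
    have h4 : Tendsto r atTop (𝓝 0) := by
      have := ((h3.const_mul R).const_mul 2).add ((h1.const_mul K2).mul_const Q)
      simp only [mul_zero, zero_mul, add_zero] at this
      exact this
    have h5 := (h2.add (h4.mul_const T)).mul_const (1 + κ * (Real.exp (κ * T) * T))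
    simpa using h5
  have hsq : (Z j₀ T - X j₀ T) ^ 2 ≤ 0 := by
    refine ge_of_tendsto hlim (eventually_atTop.2 ⟨j₀.length, fun N hN => ?_⟩)
    exact (Finset.single_le_sum (f := fun j => (Z j T - X j T) ^ 2) (fun j _ => sq_nonneg _)
      ((mem_SN N j₀).2 hN)).trans (hmain N)
  have h3 : Z j₀ T - X j₀ T = 0 :=
    pow_eq_zero_iff (two_ne_zero) |>.1 (le_antisymm hsq (sq_nonneg _))
  linarith

end Pool.Agent.N216.SG
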